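import Mathlib

/-!
# A continuous function on `ℝ^d` that is nowhere differentiable along all `C¹` unit speed curves

The function is `f x = ∑ a^k cos (b^k x_{k mod d})` with `a = 1/40` and `a b = 1 + 100 d`. At the
scale `b^(-k)` a unit speed curve differs from its tangent line by `o(b^(-k))`, and for the `k` in
the residue class of a coordinate in which the tangent is not small, the term number `k` changes by
a fixed multiple of `a^k`, while all other terms together change less.
-/

set_option autoImplicit false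

namespace Pool.Agent.Results.MP_047b76_an.NowhereDiffCurves

open Filter Topology Set

/-! ### Trigonometry -/

theorem cos_osc (x τ : ℝ) (hτ : τ = 1 ∨ τ = -1) :
    1 / 2 ≤ |Real.cos (x + τ * (Real.pi / 2)) - Real.cos x| ∨
      1 / 2 ≤ |Real.cos (x + τ * Real.pi) - Real.cos x| := by
  have h1 : Real.cos (x + τ * Real.pi) = -Real.cos x := by
    rcases hτ with rfl | rfl
    · rw [one_mul, Real.cos_add_pi]
    · rw [neg_one_mul, ← sub_eq_add_neg, Real.cos_sub_pi]
  have h2 : Real.cos (x + τ * (Real.pi / 2)) = -τ * Real.sin x := by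
    rcases hτ with rfl | rfl
    · rw [one_mul, Real.cos_add_pi_div_two]; ring
    · rw [neg_one_mul, ← sub_eq_add_neg, Real.cos_sub_pi_div_two]; ring
  rw [h1, h2]
  by_contra hcon
  push Not at hcon
  obtain ⟨h3, h4⟩ := hcon
  rw [abs_lt] at h3 h4
  have h5 := Real.sin_sq_add_cos_sq x
  have h6 : Real.cos x < 1 / 4 := by linarith [h4.1]
  have h7 : -(1 / 4) < Real.cos x := by linarith [h4.2]
  have h8 : -(3 / 4) < Real.sin x ∧ Real.sin x < 3 / 4 := by
    rcases hτ with rfl | rfl
    · constructor <;> linarith [h3.1, h3.2]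
    · constructor <;> linarith [h3.1, h3.2]
  nlinarith [h8.1, h8.2]

/-! ### The function -/

variable {d : ℕ} [NeZero d]

/-- The ratio of amplitudes. -/
noncomputable def a : ℝ := 1 / 40

/-- The ratio of frequencies. -/
noncomputable def b (d : ℕ) : ℝ := 40 * (1 + 100 * d)

/-- The term number `k`. -/
noncomputable def T (k : ℕ) (x : EuclideanSpace ℝ (Fin d)) : ℝ :=
  a ^ k * Real.cos (b d ^ k * x (Fin.ofNat d k))

/-- The function. -/
noncomputable def f (x : EuclideanSpace ℝ (Fin d)) : ℝ := ∑' k, T k x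

theorem a_pos : 0 < a := by norm_num [a]

theorem a_lt_one : a < 1 := by norm_num [a]

omit [NeZero d] in
theorem b_pos : 0 < b d := by unfold b; positivity

theorem abs_T_le (k : ℕ) (x : EuclideanSpace ℝ (Fin d)) : |T k x| ≤ a ^ k := by
  rw [T, abs_mul, abs_of_pos (pow_pos a_pos k)]
  exact mul_le_of_le_one_right (pow_pos a_pos k).le (Real.abs_cos_le_one _)

theorem summable_T (x : EuclideanSpace ℝ (Fin d)) : Summable fun k => T k x :=
  Summable.of_norm_bounded (summable_geometric_of_lt_one a_pos.le a_lt_one)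
    fun k => abs_T_le k x

theorem continuous_f : Continuous (f (d := d)) := by
  refine continuous_tsum (fun k => ?_) (summable_geometric_of_lt_one a_pos.le a_lt_one)
    fun k x => abs_T_le k x
  unfold T
  fun_prop

/-- The contribution of the other terms. -/
theorem core (k : ℕ) (x y : EuclideanSpace ℝ (Fin d)) :
    |T k x - T k y| ≤ |f x - f y| + ‖x - y‖ * (a * b d) ^ k / (a * b d - 1) +
      2 * a ^ (k + 1) / (1 - a) := by
  have hab : 1 < a * b d := by
    have : (1 : ℝ) ≤ d := by exact_mod_cast Nat.one_le_iff_ne_zero.2 (NeZero.ne d)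
    unfold a b
    linarith
  have hs : Summable fun j => T j x - T j y := (summable_T x).sub (summable_T y)
  have h1 : f x - f y = ∑' j, (T j x - T j y) := ((summable_T x).tsum_sub (summable_T y)).symm
  have h2 := hs.sum_add_tsum_nat_add (k + 1)
  rw [Finset.sum_range_succ] at h2
  have h3 : |∑ j ∈ Finset.range k, (T j x - T j y)| ≤
      ‖x - y‖ * (a * b d) ^ k / (a * b d - 1) := by
    have h4 : ∀ j ∈ Finset.range k, |T j x - T j y| ≤ ‖x - y‖ * (a * b d) ^ j := by
      intro j _
      rw [T, T, ← mul_sub, abs_mul, abs_of_pos (pow_pos a_pos j)]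
      have h5 := Real.abs_cos_sub_cos_le (b d ^ j * x (Fin.ofNat d j)) (b d ^ j * y (Fin.ofNat d j))
      rw [← mul_sub, abs_mul, abs_of_pos (pow_pos b_pos j)] at h5
      have h6 : |x (Fin.ofNat d j) - y (Fin.ofNat d j)| ≤ ‖x - y‖ := by
        have := PiLp.norm_apply_le (x - y) (Fin.ofNat d j)
        simpa using this
      calc a ^ j * |Real.cos (b d ^ j * x (Fin.ofNat d j)) - Real.cos (b d ^ j * y (Fin.ofNat d j))|
          ≤ a ^ j * (b d ^ j * |x (Fin.ofNat d j) - y (Fin.ofNat d j)|) :=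
            mul_le_mul_of_nonneg_left h5 (pow_pos a_pos j).le
        _ ≤ a ^ j * (b d ^ j * ‖x - y‖) := by
            have := pow_pos a_pos j
            have := pow_pos (b_pos (d := d)) j
            gcongr
        _ = ‖x - y‖ * (a * b d) ^ j := by rw [mul_pow]; ring
    refine (Finset.abs_sum_le_sum_abs _ _).trans ((Finset.sum_le_sum h4).trans ?_)
    rw [← Finset.mul_sum, geom_sum_eq hab.ne', mul_div_assoc]
    refine mul_le_mul_of_nonneg_left ?_ (norm_nonneg _)
    rw [div_le_div_iff_of_pos_right (by linarith)]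
    linarith
  have h7 : |∑' j, (T (j + (k + 1)) x - T (j + (k + 1)) y)| ≤ 2 * a ^ (k + 1) / (1 - a) := by
    have h8 : ∀ j, ‖T (j + (k + 1)) x - T (j + (k + 1)) y‖ ≤ 2 * a ^ (k + 1) * a ^ j := by
      intro j
      have h9 := abs_T_le (j + (k + 1)) x
      have h10 := abs_T_le (j + (k + 1)) y
      rw [Real.norm_eq_abs]
      refine (abs_sub _ _).trans ?_
      calc |T (j + (k + 1)) x| + |T (j + (k + 1)) y| ≤ a ^ (j + (k + 1)) + a ^ (j + (k + 1)) :=
            add_le_add h9 h10
        _ = 2 * a ^ (k + 1) * a ^ j := by rw [pow_add]; ring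
    have h11 : HasSum (fun j => 2 * a ^ (k + 1) * a ^ j) (2 * a ^ (k + 1) * (1 - a)⁻¹) :=
      (hasSum_geometric_of_lt_one a_pos.le a_lt_one).mul_left _
    have := tsum_of_norm_bounded h11 h8
    rw [Real.norm_eq_abs] at this
    exact this
  have h12 : T k x - T k y = (f x - f y) - ∑ j ∈ Finset.range k, (T j x - T j y) -
      ∑' j, (T (j + (k + 1)) x - T (j + (k + 1)) y) := by
    rw [h1, ← h2]; ring
  rw [h12]
  refine (abs_sub _ _).trans ?_
  have h13 := abs_sub (f x - f y) (∑ j ∈ Finset.range k, (T j x - T j y))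
  linarith

/-- The main step, on a one-sided neighbourhood described by the sign `σ`. -/
theorem main {c : ℝ → EuclideanSpace ℝ (Fin d)} {v : EuclideanSpace ℝ (Fin d)} (hv : ‖v‖ = 1)
    {t σ D : ℝ} (hσ : σ = 1 ∨ σ = -1)
    (hc : ∀ ε : ℝ, 0 < ε → ∃ δ : ℝ, 0 < δ ∧ ∀ s : ℝ, 0 ≤ s → s ≤ δ →
      ‖c (t + σ * s) - c t - (σ * s) • v‖ ≤ ε * s)
    (hf : ∃ δ : ℝ, 0 < δ ∧ ∀ s : ℝ, 0 ≤ s → s ≤ δ → |f (c (t + σ * s)) - f (c t)| ≤ D * s) :
    False := by
  have hd : (1 : ℝ) ≤ d := by exact_mod_cast Nat.one_le_iff_ne_zero.2 (NeZero.ne d)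
  have hab : a * b d = 1 + 100 * d := by unfold a b; ring
  have hb1 : 1 < b d := by unfold b; linarith
  have hσ1 : |σ| = 1 := by rcases hσ with rfl | rfl <;> simp
  have hpi := Real.pi_pos
  have hpi2 := Real.pi_lt_four
  -- a coordinate in which the tangent is not small
  obtain ⟨i, hi⟩ : ∃ i, 1 / (d : ℝ) ≤ |v i| := by
    by_contra hcon
    push Not at hcon
    have h1 : ‖v‖ ^ 2 < 1 := by
      rw [EuclideanSpace.norm_sq_eq]
      have h2 : ∀ i ∈ (Finset.univ : Finset (Fin d)), ‖v i‖ ^ 2 < 1 / (d : ℝ) := by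
        intro i _
        have h3 := hcon i
        have h4 : |v i| < 1 := h3.trans_le (by rw [div_le_one (by linarith)]; exact hd)
        rw [Real.norm_eq_abs]
        nlinarith [abs_nonneg (v i)]
      have h5 : (Finset.univ : Finset (Fin d)).Nonempty := Finset.univ_nonempty
      calc ∑ i, ‖v i‖ ^ 2 < ∑ _i : Fin d, 1 / (d : ℝ) := Finset.sum_lt_sum_of_nonempty h5 h2
        _ = 1 := by simp
    rw [hv] at h1
    norm_num at h1
  have hvi0 : 0 < |v i| := lt_of_lt_of_le (by positivity) hi
  -- the quantities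
  set S : ℝ := 4 * d with hS
  have hS0 : 0 < S := by positivity
  obtain ⟨δ1, hδ1, hc1⟩ := hc (1 / (8 * S)) (by positivity)
  obtain ⟨δ2, hδ2, hf1⟩ := hf
  -- a large index in the residue class
  have hlim1 : Tendsto (fun n : ℕ => S * (b d)⁻¹ ^ (i.1 + d * n)) atTop (𝓝 (S * 0)) := by
    refine Tendsto.const_mul S ?_
    have h1 : Tendsto (fun n : ℕ => (b d)⁻¹ ^ n) atTop (𝓝 0) :=
      tendsto_pow_atTop_nhds_zero_of_lt_one (inv_pos.2 b_pos).le (inv_lt_one_of_one_lt₀ hb1)
    refine h1.comp ?_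
    refine tendsto_atTop_mono (fun n => ?_) tendsto_id
    have : 1 ≤ d := Nat.one_le_iff_ne_zero.2 (NeZero.ne d)
    simp only [id]
    nlinarith
  rw [mul_zero] at hlim1
  have hlim2 : Tendsto (fun n : ℕ => (a * b d) ^ (i.1 + d * n)) atTop atTop := by
    have h1 : Tendsto (fun n : ℕ => (a * b d) ^ n) atTop atTop :=
      tendsto_pow_atTop_atTop_of_one_lt (by rw [hab]; linarith)
    refine h1.comp ?_
    refine tendsto_atTop_mono (fun n => ?_) tendsto_id
    have : 1 ≤ d := Nat.one_le_iff_ne_zero.2 (NeZero.ne d)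
    simp only [id]
    nlinarith
  obtain ⟨n, hn1, hn2⟩ := ((hlim1.eventually (gt_mem_nhds (lt_min hδ1 hδ2))).and
    (hlim2.eventually_gt_atTop (8 * |D| * S))).exists
  set k := i.1 + d * n with hk
  have hki : Fin.ofNat d k = i := by
    ext
    simp only [Fin.ofNat, hk, Nat.add_mul_mod_self_left]
    exact Nat.mod_eq_of_lt i.2
  have hbk : 0 < b d ^ k := pow_pos b_pos k
  have hak : 0 < a ^ k := pow_pos a_pos k
  -- the claim for a general step length
  have step : ∀ s : ℝ, 0 ≤ s → s * b d ^ k ≤ S →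
      |Real.cos (b d ^ k * c t i + σ * (s * b d ^ k * v i)) - Real.cos (b d ^ k * c t i)| < 1 / 2 := by
    intro s hs0 hs
    have hs1 : s ≤ S * (b d)⁻¹ ^ k := by
      rw [inv_pow, ← div_eq_mul_inv, le_div_iff₀ hbk]; exact hs
    have hs2 : s ≤ δ1 := (hs1.trans hn1.le).trans (min_le_left _ _)
    have hs3 : s ≤ δ2 := (hs1.trans hn1.le).trans (min_le_right _ _)
    have h1 := hc1 s hs0 hs2
    have h2 := hf1 s hs0 hs3
    set X := c (t + σ * s) with hX
    set Y := c t with hY
    have h3 := core k X Y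
    -- the distance of the points
    have h4 : ‖X - Y‖ ≤ 2 * s := by
      have h5 : X - Y = (X - Y - (σ * s) • v) + (σ * s) • v := by abel
      rw [h5]
      refine (norm_add_le _ _).trans ?_
      rw [norm_smul, hv, mul_one, Real.norm_eq_abs, abs_mul, hσ1, one_mul, abs_of_nonneg hs0]
      have h6 : 1 / (8 * S) * s ≤ s := by
        have : 1 / (8 * S) ≤ 1 := by rw [div_le_one (by positivity), hS]; linarith
        nlinarith
      linarith
    -- the error in the argument of the cosine
    have h7 : |b d ^ k * X i - (b d ^ k * Y i + σ * (s * b d ^ k * v i))| ≤ 1 / 8 := by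
      have h8 : |(X - Y - (σ * s) • v) i| ≤ 1 / (8 * S) * s := by
        have := (PiLp.norm_apply_le (X - Y - (σ * s) • v) i).trans h1
        rwa [Real.norm_eq_abs] at this
      have h9 : b d ^ k * X i - (b d ^ k * Y i + σ * (s * b d ^ k * v i)) =
          b d ^ k * (X - Y - (σ * s) • v) i := by
        simp only [PiLp.sub_apply, PiLp.smul_apply, smul_eq_mul]
        ring
      rw [h9, abs_mul, abs_of_pos hbk]
      calc b d ^ k * |(X - Y - (σ * s) • v) i| ≤ b d ^ k * (1 / (8 * S) * s) :=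
            mul_le_mul_of_nonneg_left h8 hbk.le
        _ = (s * b d ^ k) * (1 / (8 * S)) := by ring
        _ ≤ S * (1 / (8 * S)) := by gcongr
        _ = 1 / 8 := by field_simp
    have h10 := Real.abs_cos_sub_cos_le (b d ^ k * X i) (b d ^ k * Y i + σ * (s * b d ^ k * v i))
    -- assemble
    have h11 : T k X - T k Y = a ^ k * (Real.cos (b d ^ k * X i) - Real.cos (b d ^ k * Y i)) := by
      rw [T, T, hki]; ring
    rw [h11, abs_mul, abs_of_pos hak] at h3
    have h12 : ‖X - Y‖ * (a * b d) ^ k / (a * b d - 1) ≤ a ^ k * (8 / 100) := by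
      rw [hab, show (1 + 100 * (d : ℝ) - 1) = 100 * d by ring, ← hab, mul_pow,
        div_le_iff₀ (by positivity)]
      calc ‖X - Y‖ * (a ^ k * b d ^ k) ≤ (2 * s) * (a ^ k * b d ^ k) := by gcongr
        _ = 2 * a ^ k * (s * b d ^ k) := by ring
        _ ≤ 2 * a ^ k * S := by gcongr
        _ = a ^ k * (8 / 100) * (100 * d) := by rw [hS]; ring
    have h13 : 2 * a ^ (k + 1) / (1 - a) ≤ a ^ k * (1 / 16) := by
      rw [pow_succ]
      have : a ^ k * (2 * a / (1 - a)) ≤ a ^ k * (1 / 16) := by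
        refine mul_le_mul_of_nonneg_left ?_ hak.le
        norm_num [a]
      refine le_trans (le_of_eq ?_) this
      ring
    have h14 : |f X - f Y| ≤ a ^ k * (1 / 8) := by
      refine h2.trans ?_
      have h15 : D * s ≤ |D| * (S / b d ^ k) := by
        have h16 : s ≤ S / b d ^ k := by rw [le_div_iff₀ hbk]; exact hs
        exact (mul_le_mul_of_nonneg_right (le_abs_self D) hs0).trans
          (mul_le_mul_of_nonneg_left h16 (abs_nonneg D))
      refine h15.trans ?_
      rw [← mul_div_assoc, div_le_iff₀ hbk]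
      rw [mul_pow] at hn2
      linarith
    have h17 : a ^ k * |Real.cos (b d ^ k * X i) - Real.cos (b d ^ k * Y i)| ≤
        a ^ k * (1 / 8 + 8 / 100 + 1 / 16) := by linarith
    have h18 := le_of_mul_le_mul_left h17 hak
    have h19 : |Real.cos (b d ^ k * Y i + σ * (s * b d ^ k * v i)) - Real.cos (b d ^ k * Y i)| ≤
        |Real.cos (b d ^ k * X i) - Real.cos (b d ^ k * Y i)| +
        |Real.cos (b d ^ k * X i) - Real.cos (b d ^ k * Y i + σ * (s * b d ^ k * v i))| := by
      have h20 : Real.cos (b d ^ k * Y i + σ * (s * b d ^ k * v i)) - Real.cos (b d ^ k * Y i) =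
        (Real.cos (b d ^ k * X i) - Real.cos (b d ^ k * Y i)) -
        (Real.cos (b d ^ k * X i) - Real.cos (b d ^ k * Y i + σ * (s * b d ^ k * v i))) := by ring
      rw [h20]
      exact abs_sub _ _
    linarith
  -- the two step lengths
  have hvi : v i = |v i| ∨ v i = -|v i| := by
    rcases abs_choice (v i) with h | h
    · left; exact h.symm
    · right; rw [h]; ring
  have hvne : |v i| ≠ 0 := hvi0.ne'
  have hbound : Real.pi / |v i| ≤ S := by
    rw [div_le_iff₀ hvi0, hS]
    have : 1 ≤ (d : ℝ) * |v i| := by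
      rw [div_le_iff₀ (by linarith)] at hi
      linarith
    nlinarith
  obtain ⟨τ, hτ, hτ2⟩ : ∃ τ : ℝ, (τ = 1 ∨ τ = -1) ∧ σ * v i = τ * |v i| := by
    rcases hσ with rfl | rfl <;> rcases hvi with h | h
    · exact ⟨1, Or.inl rfl, by linarith⟩
    · exact ⟨-1, Or.inr rfl, by linarith⟩
    · exact ⟨-1, Or.inr rfl, by linarith⟩
    · exact ⟨1, Or.inl rfl, by linarith⟩
  have e1 : ∀ θ : ℝ, σ * ((θ / |v i|) / b d ^ k * b d ^ k * v i) = τ * θ := by
    intro θ
    rw [div_mul_cancel₀ _ hbk.ne']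
    calc σ * (θ / |v i| * v i) = (θ / |v i|) * (σ * v i) := by ring
      _ = (θ / |v i|) * (τ * |v i|) := by rw [hτ2]
      _ = τ * θ := by field_simp
  rcases cos_osc (b d ^ k * c t i) τ hτ with h | h
  · have h1 := step ((Real.pi / 2 / |v i|) / b d ^ k) (by positivity) (by
      rw [div_mul_cancel₀ _ hbk.ne']
      refine le_trans ?_ hbound
      gcongr
      linarith)
    rw [e1] at h1
    linarith
  · have h1 := step ((Real.pi / |v i|) / b d ^ k) (by positivity) (by
      rw [div_mul_cancel₀ _ hbk.ne']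
      exact hbound)
    rw [e1] at h1
    linarith

/-- **Main theorem.** -/
theorem result : ∀ d : ℕ, 1 ≤ d → ∃ f : EuclideanSpace ℝ (Fin d) → ℝ, Continuous f ∧
    ∀ (I : Set ℝ) (c c' : ℝ → EuclideanSpace ℝ (Fin d)), I.OrdConnected → (interior I).Nonempty →
      (∀ t ∈ I, HasDerivWithinAt c (c' t) I t) → (∀ t ∈ I, ‖c' t‖ = 1) →
      ∀ t ∈ I, ¬ DifferentiableWithinAt ℝ (f ∘ c) I t := by
  intro d hd
  have : NeZero d := ⟨by omega⟩
  refine ⟨f, continuous_f, ?_⟩
  intro I c c' hI hIne hc hc' t ht hdiff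
  -- a one-sided neighbourhood
  obtain ⟨σ, hσ, δ0, hδ0, hmem⟩ : ∃ σ : ℝ, (σ = 1 ∨ σ = -1) ∧ ∃ δ : ℝ, 0 < δ ∧
      ∀ s : ℝ, 0 ≤ s → s ≤ δ → t + σ * s ∈ I := by
    obtain ⟨p, hp⟩ := hIne
    obtain ⟨r, hr, hball⟩ := Metric.isOpen_iff.1 isOpen_interior p hp
    rcases le_total t p with htp | htp
    · have hq : p + r / 2 ∈ I := interior_subset (hball (by
        rw [Metric.mem_ball, Real.dist_eq]
        rw [add_sub_cancel_left, abs_of_pos (by linarith)]
        linarith))
      refine ⟨1, Or.inl rfl, r / 2, by linarith, fun s hs0 hs => hI.out ht hq ?_⟩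
      constructor <;> linarith
    · have hq : p - r / 2 ∈ I := interior_subset (hball (by
        rw [Metric.mem_ball, Real.dist_eq]
        rw [sub_sub_cancel_left, abs_neg, abs_of_pos (by linarith)]
        linarith))
      refine ⟨-1, Or.inr rfl, r / 2, by linarith, fun s hs0 hs => hI.out hq ht ?_⟩
      constructor <;> linarith
  have hσ1 : |σ| = 1 := by rcases hσ with rfl | rfl <;> simp
  obtain ⟨D, hD⟩ := hdiff
  have hD' : HasDerivWithinAt (f ∘ c) (D 1) I t := hD.hasDerivWithinAt
  refine main (c := c) (v := c' t) (hc' t ht) (t := t) (σ := σ) (D := |D 1| + 1) hσ ?_ ?_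
  · intro ε hε
    have h1 := (hasDerivWithinAt_iff_isLittleO.1 (hc t ht)).bound hε
    rw [eventually_nhdsWithin_iff, Metric.eventually_nhds_iff] at h1
    obtain ⟨δ, hδ, h2⟩ := h1
    refine ⟨min δ0 (δ / 2), lt_min hδ0 (by linarith), fun s hs0 hs => ?_⟩
    have h3 := h2 (y := t + σ * s) (by
      rw [Real.dist_eq, add_sub_cancel_left, abs_mul, hσ1, one_mul, abs_of_nonneg hs0]
      have := hs.trans (min_le_right _ _)
      linarith) (hmem s hs0 (hs.trans (min_le_left _ _)))
    rw [add_sub_cancel_left, Real.norm_eq_abs, abs_mul, hσ1, one_mul, abs_of_nonneg hs0] at h3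
    exact h3
  · have h1 := (hasDerivWithinAt_iff_isLittleO.1 hD').bound one_pos
    rw [eventually_nhdsWithin_iff, Metric.eventually_nhds_iff] at h1
    obtain ⟨δ, hδ, h2⟩ := h1
    refine ⟨min δ0 (δ / 2), lt_min hδ0 (by linarith), fun s hs0 hs => ?_⟩
    have h3 := h2 (y := t + σ * s) (by
      rw [Real.dist_eq, add_sub_cancel_left, abs_mul, hσ1, one_mul, abs_of_nonneg hs0]
      have := hs.trans (min_le_right _ _)
      linarith) (hmem s hs0 (hs.trans (min_le_left _ _)))
    rw [add_sub_cancel_left, Real.norm_eq_abs (σ * s), abs_mul σ s, hσ1, one_mul,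
      abs_of_nonneg hs0, one_mul, Real.norm_eq_abs] at h3
    simp only [Function.comp_apply, smul_eq_mul] at h3
    have h4 : f (c (t + σ * s)) - f (c t) =
        (f (c (t + σ * s)) - f (c t) - σ * s * D 1) + σ * s * D 1 := by ring
    rw [h4]
    refine (abs_add_le _ _).trans ?_
    rw [abs_mul (σ * s), abs_mul σ s, hσ1, one_mul, abs_of_nonneg hs0]
    linarith

end Pool.Agent.Results.MP_047b76_an.NowhereDiffCurves
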